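import Mathlib
import Pool.Agent.H27.RepGrowth

open Finset Filter Topology

set_option maxHeartbeats 4000000

namespace Pool.Agent.Results.MP_885588_nt.RepGrowth

open Pool.Agent.H27.RepGrowth

/-- counting function `A(n) = |{a ∈ A : 0 < a ≤ n}|` -/
noncomputable def count (A : Set ℕ) (n : ℕ) : ℕ := Nat.card {a : ℕ // a ∈ A ∧ 0 < a ∧ a ≤ n}

lemma sum_q_le (A : Set ℕ) (n : ℕ) : ∑ m ∈ range (n + 1), (q A 1 m : ℝ) ≤ 1 + count A n := by
  classical
  have h1 : ∀ m ∈ range (n + 1), (q A 1 m : ℝ) = if m ∈ A then 1 else 0 := by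
    intro m _
    unfold q
    by_cases h : m ∈ A
    · simp [h]
    · simp [h]
  rw [sum_congr rfl h1, ← sum_filter, sum_const, nsmul_eq_mul, mul_one]
  have h2 : ((range (n + 1)).filter (fun m => m ∈ A)).card ≤ 1 + count A n := by
    have h3 : (range (n + 1)).filter (fun m => m ∈ A) ⊆ insert 0 ((Ioc 0 n).filter (fun m => m ∈ A)) := by
      intro m hm
      rw [mem_filter, mem_range] at hm
      rw [mem_insert, mem_filter, mem_Ioc]
      rcases Nat.eq_zero_or_pos m with h | h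
      · left; exact h
      · right; exact ⟨⟨h, by omega⟩, hm.2⟩
    have h4 := (card_le_card h3).trans (card_insert_le _ _)
    have h5 : ((Ioc 0 n).filter (fun m => m ∈ A)).card = count A n := by
      unfold count
      rw [← Nat.card_eq_finsetCard]
      refine Nat.card_congr (Equiv.subtypeEquivRight ?_)
      intro a
      rw [mem_filter, mem_Ioc]
      tauto
    omega
  exact_mod_cast h2

lemma S_upper (A : Set ℕ) {γ : ℝ} (hγ0 : 0 < γ) (hγ1 : γ ≤ 1)
    (hO : (fun n : ℕ => (count A n : ℝ)) =O[atTop] (fun n : ℕ => (n : ℝ) ^ γ)) :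
    ∃ C : ℝ, 0 < C ∧ ∀ M : ℕ, 1 ≤ M → S A 1 (rr M) ≤ C * (M : ℝ) ^ γ := by
  classical
  obtain ⟨c, hc⟩ := hO.bound
  obtain ⟨n1, hn1⟩ := hc.exists_forall_of_atTop
  set C : ℝ := |c| + n1 + 2 with hC
  have hC0 : 0 < C := by positivity
  have hast : ∀ n : ℕ, ∑ m ∈ range (n + 1), (q A 1 m : ℝ) ≤ C * ((n : ℝ) + 1) ^ γ := by
    intro n
    have h1 : (1:ℝ) ≤ ((n : ℝ) + 1) ^ γ := Real.one_le_rpow (by linarith [(Nat.cast_nonneg n : (0:ℝ) ≤ n)]) hγ0.le
    rcases Nat.lt_or_ge n n1 with h | h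
    · have h2 : ∑ m ∈ range (n + 1), (q A 1 m : ℝ) ≤ ∑ m ∈ range (n + 1), (1:ℝ) := sum_le_sum (fun m _ => q_le_one A 1 m)
      rw [sum_const, card_range, nsmul_eq_mul, mul_one] at h2
      have h3 : ((n + 1 : ℕ) : ℝ) ≤ n1 := by exact_mod_cast h
      have h4 := abs_nonneg c
      have h5 : (0:ℝ) ≤ n1 := by positivity
      nlinarith
    · have h2 := hn1 n h
      rw [Real.norm_of_nonneg (by positivity), Real.norm_of_nonneg (by positivity)] at h2
      have h3 := sum_q_le A n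
      have h4 : (n : ℝ) ^ γ ≤ ((n : ℝ) + 1) ^ γ := Real.rpow_le_rpow (by positivity) (by linarith) hγ0.le
      have h5 : c * (n : ℝ) ^ γ ≤ |c| * ((n : ℝ) + 1) ^ γ := by
        have := le_abs_self c
        have h6 : 0 ≤ (n : ℝ) ^ γ := by positivity
        calc c * (n : ℝ) ^ γ ≤ |c| * (n : ℝ) ^ γ := mul_le_mul_of_nonneg_right this h6
          _ ≤ |c| * ((n : ℝ) + 1) ^ γ := mul_le_mul_of_nonneg_left h4 (abs_nonneg c)
      have h7 : (0:ℝ) ≤ n1 := by positivity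
      nlinarith
  refine ⟨3 * C, by positivity, ?_⟩
  intro M hM
  set r := rr M with hr
  have hr0 : 0 ≤ r := (rr_pos M).le
  have hr1 : r < 1 := rr_lt hM
  have hMR : (0:ℝ) < M := by exact_mod_cast hM
  have h1r : 0 < 1 - r := by linarith
  have hgeo := hasSum_geometric_of_lt_one hr0 hr1
  have hcoe := hasSum_coe_mul_geometric_of_norm_lt_one (𝕜 := ℝ) (r := r) (by rw [Real.norm_of_nonneg hr0]; exact hr1)
  have hmul : S A 1 r * (1 - r)⁻¹ = ∑' n : ℕ, (∑ m ∈ range (n + 1), (q A 1 m : ℝ)) * r ^ n ∧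
      Summable (fun n : ℕ => (∑ m ∈ range (n + 1), (q A 1 m : ℝ)) * r ^ n) := by
    have hs1 : Summable (fun m => ‖(q A 1 m : ℝ) * r ^ m‖) := (S_summable A 1 hr0 hr1).norm
    have hs2 : Summable (fun m : ℕ => ‖r ^ m‖) := hgeo.summable.norm
    have e1 := tsum_mul_tsum_eq_tsum_sum_antidiagonal_of_summable_norm hs1 hs2
    have e2 := summable_norm_sum_mul_antidiagonal_of_summable_norm hs1 hs2
    have e3 : ∀ n : ℕ, ∑ kl ∈ antidiagonal n, (q A 1 kl.1 : ℝ) * r ^ kl.1 * r ^ kl.2 = (∑ m ∈ range (n + 1), (q A 1 m : ℝ)) * r ^ n := by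
      intro n
      rw [Nat.sum_antidiagonal_eq_sum_range_succ (fun a b => (q A 1 a : ℝ) * r ^ a * r ^ b) n, sum_mul]
      refine sum_congr rfl ?_
      intro m hm
      have : m ≤ n := by have := mem_range.1 hm; omega
      rw [mul_assoc, ← pow_add]
      congr 2
      omega
    refine ⟨?_, ?_⟩
    · rw [← hgeo.tsum_eq]
      unfold S
      rw [e1]
      exact tsum_congr e3
    · exact e2.of_norm.congr e3
  -- compare
  have hcomp : ∀ n : ℕ, (∑ m ∈ range (n + 1), (q A 1 m : ℝ)) * r ^ n ≤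
      C * (M : ℝ) ^ γ * ((1 + 1 / M) * r ^ n + (1 / M) * (n * r ^ n)) := by
    intro n
    have h1 : ((n : ℝ) + 1) ^ γ ≤ (M : ℝ) ^ γ * (1 + ((n : ℝ) + 1) / M) := by
      have h2 := rpow_le_one_add (x := ((n : ℝ) + 1) / M) (s := γ) (by positivity) hγ0.le hγ1
      rw [Real.div_rpow (by positivity) hMR.le, div_le_iff₀ (by positivity)] at h2
      linarith
    have h3 : 0 ≤ r ^ n := by positivity
    calc (∑ m ∈ range (n + 1), (q A 1 m : ℝ)) * r ^ n ≤ (C * ((M : ℝ) ^ γ * (1 + ((n : ℝ) + 1) / M))) * r ^ n :=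
          mul_le_mul_of_nonneg_right ((hast n).trans (mul_le_mul_of_nonneg_left h1 hC0.le)) h3
      _ = _ := by ring
  have hS2 : Summable (fun n : ℕ => C * (M : ℝ) ^ γ * ((1 + 1 / M) * r ^ n + (1 / M) * (n * r ^ n))) :=
    ((hgeo.summable.mul_left _).add (hcoe.summable.mul_left _)).mul_left _
  have hle := hmul.2.tsum_le_tsum hcomp hS2
  rw [← hmul.1, tsum_mul_left, (hgeo.summable.mul_left _).tsum_add (hcoe.summable.mul_left _), tsum_mul_left, tsum_mul_left,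
    hgeo.tsum_eq, hcoe.tsum_eq] at hle
  have h4 : S A 1 r ≤ C * (M : ℝ) ^ γ * ((1 + 1 / M) + (1 / M) * (r / (1 - r))) := by
    have h5 := mul_le_mul_of_nonneg_right hle h1r.le
    have e1 : S A 1 r * (1 - r)⁻¹ * (1 - r) = S A 1 r := by field_simp
    rw [e1] at h5
    refine h5.trans (le_of_eq ?_)
    field_simp
  have h6 := one_sub_rr_ge hM
  rw [← hr] at h6
  have h7 : (1 / M : ℝ) * (1 / (1 - r)) ≤ 2 := by
    rw [div_mul_div_comm, one_mul, div_le_iff₀ (by positivity)]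
    rw [div_le_iff₀ (by positivity)] at h6
    linarith
  have h8 : (1 + 1 / (M : ℝ)) + (1 / M) * (r / (1 - r)) = 1 + (1 / M) * (1 / (1 - r)) := by
    field_simp
    ring
  rw [h8] at h4
  have h9 : 0 ≤ C * (M : ℝ) ^ γ := by positivity
  calc S A 1 r ≤ C * (M : ℝ) ^ γ * (1 + (1 / M) * (1 / (1 - r))) := h4
    _ ≤ C * (M : ℝ) ^ γ * 3 := mul_le_mul_of_nonneg_left (by linarith) h9
    _ = 3 * C * (M : ℝ) ^ γ := by ring

lemma rr_two_pow (m : ℕ) : rr (2 ^ (m + 1)) ^ 2 = rr (2 ^ m) := by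
  unfold rr
  rw [← Real.exp_nat_mul]
  congr 1
  push_cast
  rw [pow_succ]
  field_simp

lemma core (A : Set ℕ) (hA : A.Infinite) (k : ℕ) (hk : 2 ≤ k) (g : ℕ → ℕ) (hle : ∀ n, g n ≤ r1 A n k)
    (hmono : ∃ n0, ∀ n ≥ n0, g n ≤ g (n + 1)) (hpos : ∀ N, ∃ n ≥ N, 1 ≤ g n)
    (hpt : ∃ K : ℝ, 1 ≤ K ∧ ∀ z : ℂ, ‖z‖ < 1 →
      ‖P A 1 z‖ ^ 2 ≤ K * (1 + ∑ i ∈ Icc 2 k, ‖P A i z‖) ∨ ‖P A 1 z‖ ^ k ≤ K * ‖ev (fun n => (g n : ℂ)) z‖)
    (ε : ℝ) (hε : 0 < ε) :
    ¬ (fun n : ℕ => (count A n : ℝ)) =O[atTop] (fun n : ℕ => (n : ℝ) ^ (2 / k - ε : ℝ)) := by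
  intro hO
  obtain ⟨n0, hn0⟩ := hmono
  have hkR : (2:ℝ) ≤ k := by exact_mod_cast hk
  -- reduce ε
  set e := min ε (1 / k) with he
  have he0 : 0 < e := lt_min hε (by positivity)
  set γ : ℝ := 2 / k - e with hγ
  have hγ0 : 0 < γ := by
    have h1 : e ≤ 1 / k := min_le_right _ _
    have h2 : (0:ℝ) < 1 / k := by positivity
    have h3 : (2:ℝ) / k = 1 / k + 1 / k := by ring
    rw [hγ, h3]; linarith
  have h2k : (2:ℝ) / k ≤ 1 := by rw [div_le_one (by linarith)]; exact hkR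
  have hγ1 : γ ≤ 1 := by rw [hγ]; linarith
  have hO2 : (fun n : ℕ => (count A n : ℝ)) =O[atTop] (fun n : ℕ => (n : ℝ) ^ γ) := by
    refine hO.trans ?_
    refine Asymptotics.IsBigO.of_bound 1 ?_
    filter_upwards [eventually_ge_atTop 1] with n hn
    have hnR : (1:ℝ) ≤ n := by exact_mod_cast hn
    rw [Real.norm_of_nonneg (by positivity), Real.norm_of_nonneg (by positivity), one_mul]
    refine Real.rpow_le_rpow_of_exponent_le hnR ?_
    have : e ≤ ε := min_le_left _ _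
    rw [hγ]; linarith
  obtain ⟨C1, hC1, M0, hmain⟩ := main_est A hA k hk g hle n0 hn0 hpos hpt
  obtain ⟨C2, hC2, hup⟩ := S_upper A hγ0 hγ1 hO2
  -- the factor tends to zero
  have hlim : Tendsto (fun x : ℝ => x ^ (-e) * (3 + Real.log x)) atTop (𝓝 0) := by
    have h1 : Tendsto (fun x : ℝ => x ^ (-e) * 3) atTop (𝓝 0) := by
      simpa using (tendsto_rpow_neg_atTop he0).mul_const 3
    have h2 : Tendsto (fun x : ℝ => x ^ (-e) * Real.log x) atTop (𝓝 0) := by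
      have h3 := (isLittleO_log_rpow_atTop he0).tendsto_div_nhds_zero
      refine h3.congr' ?_
      filter_upwards [eventually_gt_atTop 0] with x hx
      rw [Real.rpow_neg hx.le]
      field_simp
    have := h1.add h2
    simp only [add_zero] at this
    refine this.congr ?_
    intro x; ring
  have hpow : Tendsto (fun m : ℕ => ((2 ^ (m + 1) : ℕ) : ℝ)) atTop atTop := by
    refine tendsto_natCast_atTop_atTop.comp ?_
    exact (tendsto_pow_atTop_atTop_of_one_lt (by norm_num : 1 < 2)).comp (tendsto_add_atTop_nat 1)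
  have hev := (hlim.comp hpow).eventually_lt_const (show (0:ℝ) < 1 / (4 * (C1 * C2)) by positivity)
  obtain ⟨m1, hm1⟩ := hev.exists_forall_of_atTop
  obtain ⟨M2, hM21, hM2⟩ := S_large hA 1
  set φ : ℕ → ℝ := fun m => S A 1 (rr (2 ^ m)) with hφ
  have hφ0 : ∀ m, 0 ≤ φ m := fun m => S_nonneg A 1 (rr_pos _).le
  have hstep : ∀ m, m1 ≤ m → M0 ≤ m → 4 * φ m ≤ φ (m + 1) := by
    intro m h1 h2
    have hlt : m < 2 ^ (m + 1) := (Nat.lt_two_pow_self).trans (Nat.pow_lt_pow_right (by norm_num) (by omega))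
    have h3 := hmain (2 ^ (m + 1)) (by omega)
    rw [rr_two_pow] at h3
    have h4 := hup (2 ^ (m + 1)) Nat.one_le_two_pow
    have h5 := hm1 m h1
    simp only [Function.comp] at h5
    set x : ℝ := ((2 ^ (m + 1) : ℕ) : ℝ) with hx
    have hx0 : 0 < x := by rw [hx]; positivity
    have hx1 : 1 ≤ x := by rw [hx]; exact_mod_cast Nat.one_le_two_pow
    have hlog : 0 ≤ Real.log x := Real.log_nonneg hx1
    have e1 : x ^ (-(2 / k : ℝ)) * x ^ γ = x ^ (-e) := by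
      rw [← Real.rpow_add hx0]
      congr 1
      rw [hγ]; ring
    have h6 : φ m ≤ C1 * (x ^ (-(2 / k : ℝ)) * (3 + Real.log x)) * φ (m + 1) ^ 2 := h3
    have h7 : φ (m + 1) ≤ C2 * x ^ γ := h4
    have h8 : φ (m + 1) ^ 2 ≤ (C2 * x ^ γ) * φ (m + 1) := by
      rw [sq]
      exact mul_le_mul_of_nonneg_right h7 (hφ0 _)
    have hcoef : 0 ≤ C1 * (x ^ (-(2 / k : ℝ)) * (3 + Real.log x)) := by positivity
    have h9 : φ m ≤ (C1 * C2) * (x ^ (-e) * (3 + Real.log x)) * φ (m + 1) := by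
      calc φ m ≤ C1 * (x ^ (-(2 / k : ℝ)) * (3 + Real.log x)) * φ (m + 1) ^ 2 := h6
        _ ≤ C1 * (x ^ (-(2 / k : ℝ)) * (3 + Real.log x)) * ((C2 * x ^ γ) * φ (m + 1)) := mul_le_mul_of_nonneg_left h8 hcoef
        _ = (C1 * C2) * ((x ^ (-(2 / k : ℝ)) * x ^ γ) * (3 + Real.log x)) * φ (m + 1) := by ring
        _ = _ := by rw [e1]
    have h10 : (C1 * C2) * (x ^ (-e) * (3 + Real.log x)) ≤ 1 / 4 := by
      have hcc : 0 < C1 * C2 := by positivity
      have := mul_le_mul_of_nonneg_left h5.le hcc.le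
      refine this.trans (le_of_eq ?_)
      field_simp
    have h11 : φ m ≤ 1 / 4 * φ (m + 1) := h9.trans (mul_le_mul_of_nonneg_right h10 (hφ0 _))
    linarith
  set m2 := max (max m1 M0) M2 with hm2
  have hm2a : m1 ≤ m2 := (le_max_left _ _).trans (le_max_left _ _)
  have hm2b : M0 ≤ m2 := (le_max_right _ _).trans (le_max_left _ _)
  have hm2c : M2 ≤ m2 := le_max_right _ _
  have hiter : ∀ j, 4 ^ j * φ m2 ≤ φ (m2 + j) := by
    intro j
    induction j with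
    | zero => simp
    | succ j ih =>
      have := hstep (m2 + j) (by omega) (by omega)
      have e : m2 + (j + 1) = m2 + j + 1 := by ring
      rw [e, pow_succ]
      linarith
  have hφpos : 1 ≤ φ m2 := by
    have h1 := hM2 (2 ^ (m2 + 1)) (by
      have : m2 < 2 ^ (m2 + 1) := (Nat.lt_two_pow_self).trans (Nat.pow_lt_pow_right (by norm_num) (by omega))
      omega)
    rw [rr_two_pow] at h1
    exact h1
  have hbd : ∀ j : ℕ, (2:ℝ) ^ j ≤ C2 * 2 ^ m2 := by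
    intro j
    have h1 := hiter j
    have h2 := hup (2 ^ (m2 + j)) Nat.one_le_two_pow
    have h3 : (((2 ^ (m2 + j) : ℕ) : ℝ)) ^ γ ≤ ((2 ^ (m2 + j) : ℕ) : ℝ) := by
      have h4 : (1:ℝ) ≤ ((2 ^ (m2 + j) : ℕ) : ℝ) := by exact_mod_cast Nat.one_le_two_pow
      have := Real.rpow_le_rpow_of_exponent_le h4 hγ1
      rwa [Real.rpow_one] at this
    have h5 : (4:ℝ) ^ j ≤ C2 * (2 ^ m2 * 2 ^ j) := by
      have h6 : (4:ℝ) ^ j * 1 ≤ 4 ^ j * φ m2 := mul_le_mul_of_nonneg_left hφpos (by positivity)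
      have h7 : C2 * (((2 ^ (m2 + j) : ℕ) : ℝ)) ^ γ ≤ C2 * ((2 ^ (m2 + j) : ℕ) : ℝ) := mul_le_mul_of_nonneg_left h3 hC2.le
      push_cast at h7
      rw [pow_add] at h7
      have h8 : φ (m2 + j) ≤ C2 * (2 ^ m2 * 2 ^ j) := by
        refine le_trans h2 ?_
        push_cast
        rw [pow_add]
        exact h7
      linarith
    have h9 : (4:ℝ) ^ j = 2 ^ j * 2 ^ j := by rw [← mul_pow]; norm_num
    rw [h9] at h5
    have h10 : (0:ℝ) < 2 ^ j := by positivity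
    have h11 : 2 ^ j * (2:ℝ) ^ j ≤ (C2 * 2 ^ m2) * 2 ^ j := by linarith
    exact le_of_mul_le_mul_right h11 h10
  obtain ⟨j, hj⟩ := pow_unbounded_of_one_lt (C2 * 2 ^ m2) (by norm_num : (1:ℝ) < 2)
  have := hbd j
  linarith

/-- `f` is increasing (non-strictly) from some point on -/
def IncreasingFromSomePointOn (f : ℕ → ℕ) : Prop := ∃ n0, ∀ n ≥ n0, f n ≤ f (n + 1)

theorem result : ∀ k : ℕ, 2 ≤ k → ∀ ε : ℝ, 0 < ε → ∀ A : Set ℕ, A.Infinite →
    (IncreasingFromSomePointOn (fun n => r1 A n k) ∨ IncreasingFromSomePointOn (fun n => r2 A n k) ∨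
      IncreasingFromSomePointOn (fun n => r3 A n k)) →
    ¬ (fun n : ℕ => (count A n : ℝ)) =O[atTop] (fun n : ℕ => (n : ℝ) ^ (2 / k - ε : ℝ)) := by
  intro k hk ε hε A hA h
  have hp3 : ∀ N, ∃ n ≥ N, 1 ≤ r3 A n k := r3_pos hA k (by omega)
  rcases h with h | h | h
  · exact core A hA k hk (fun n => r1 A n k) (fun n => le_refl _) h
      (fun N => by
        obtain ⟨n, hn, h1⟩ := hp3 N
        exact ⟨n, hn, h1.trans ((r3_le_r2 A n k).trans (r2_le_r1 A n k))⟩) (pt_r1 A k) ε hε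
  · exact core A hA k hk (fun n => r2 A n k) (fun n => r2_le_r1 A n k) h
      (fun N => by
        obtain ⟨n, hn, h1⟩ := hp3 N
        exact ⟨n, hn, h1.trans (r3_le_r2 A n k)⟩) (pt_r2 A k (by omega)) ε hε
  · exact core A hA k hk (fun n => r3 A n k) (fun n => (r3_le_r2 A n k).trans (r2_le_r1 A n k)) h hp3 (pt_r3 A k (by omega)) ε hε

end Pool.Agent.Results.MP_885588_nt.RepGrowth
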